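import Mathlib

set_option autoImplicit false
set_option maxHeartbeats 800000

namespace Pool.Agent.Results.MP_b4bd03_co.Quad

open Finset

/-- number of ascents of the initial segment `s 0, ..., s (m-1)` -/
def asc (s : ℕ → ℕ) (m : ℕ) : ℕ := ((range (m - 1)).filter fun i => s i < s (i + 1)).card

/-- `s 0, ..., s (n-1)` is an ascent sequence of length `n` -/
def IsAsc (n : ℕ) (s : ℕ → ℕ) : Prop := 0 < n ∧ s 0 = 0 ∧ ∀ i, 1 ≤ i → i < n → s i ≤ 1 + asc s i

/-- `s 0, ..., s (n-1)` contains the pattern `t 0, ..., t (m-1)` -/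
def Cont (n : ℕ) (s : ℕ → ℕ) (m : ℕ) (t : ℕ → ℕ) : Prop :=
  ∃ e : ℕ → ℕ, (∀ a b, a < b → b < m → e a < e b) ∧ (∀ a, a < m → e a < n) ∧
    ∀ a b, a < m → b < m → (s (e a) < s (e b) ↔ t a < t b) ∧ (s (e a) = s (e b) ↔ t a = t b)

/-- `s 0, ..., s (n-1)` is minimal for the decreasing pattern `k-1, ..., 0` -/
def Mini (k n : ℕ) (s : ℕ → ℕ) : Prop :=
  IsAsc n s ∧ Cont n s k (fun a => k - 1 - a) ∧
    ∀ m t, m < n → IsAsc m t → Cont n s m t → ¬Cont m t k fun a => k - 1 - a

theorem asc_succ (s : ℕ → ℕ) (m : ℕ) :
    asc s (m + 2) = asc s (m + 1) + if s m < s (m + 1) then 1 else 0 := by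
  simp only [asc, Nat.add_succ_sub_one, Nat.add_zero, range_add_one, filter_insert]
  split_ifs
  · rw [card_insert_of_notMem (by simp)]
  · rfl

theorem asc_mono (s : ℕ → ℕ) {a b : ℕ} (h : a ≤ b) : asc s a ≤ asc s b :=
  card_le_card (filter_subset_filter _ (range_mono (by omega)))

theorem asc_congr {s t : ℕ → ℕ} {m : ℕ} (h : ∀ i, i + 1 < m → (s i < s (i + 1) ↔ t i < t (i + 1))) :
    asc s m = asc t m := congrArg card (filter_congr fun i hi => h i (by rw [mem_range] at hi; omega))

def del (s : ℕ → ℕ) (i a : ℕ) : ℕ := if a < i then s a else s (a + 1)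

theorem asc_del (s : ℕ → ℕ) (i j : ℕ) : asc (del s (i + 1)) (i + 2 + j) +
    (if s i < s (i + 1) then 1 else 0) + (if s (i + 1) < s (i + 2) then 1 else 0) =
    asc s (i + 3 + j) + if s i < s (i + 2) then 1 else 0 := by
  induction j with
  | zero =>
    have : asc (del s (i + 1)) (i + 1) = asc s (i + 1) := asc_congr fun a ha => by
      simp only [del]; rw [if_pos (by omega), if_pos (by omega)]
    rw [Nat.add_zero, Nat.add_zero, asc_succ, asc_succ s (i + 1), asc_succ s i, this]
    rw [show del s (i + 1) i = s i from if_pos (by omega),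
      show del s (i + 1) (i + 1) = s (i + 2) from if_neg (by omega), show i + 1 + 1 = i + 2 from rfl]
    omega
  | succ j ih =>
    rw [show i + 2 + (j + 1) = i + 1 + j + 2 by omega, show i + 3 + (j + 1) = i + 2 + j + 2 by omega,
      asc_succ, asc_succ s, show i + 1 + j + 1 = i + 2 + j by omega,
      show i + 2 + j + 1 = i + 3 + j by omega]
    rw [show del s (i + 1) (i + 1 + j) = s (i + 2 + j) from
        (if_neg (by omega)).trans (congrArg s (by omega)),
      show del s (i + 1) (i + 2 + j) = s (i + 3 + j) from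
        (if_neg (by omega)).trans (congrArg s (by omega))]
    omega

theorem dec {k n : ℕ} {t d : ℕ → ℕ} (h1 : ∀ a b, a < b → b < k → d a < d b) (h2 : ∀ a, a < k → d a < n)
    (h3 : ∀ a b, a < b → b < k → t (d b) < t (d a)) : Cont n t k fun a => k - 1 - a :=
  ⟨d, h1, h2, fun a b ha hb => by
    have := h3 a b
    have := h3 b a
    rcases lt_trichotomy a b with h | rfl | h <;> dsimp only <;> omega⟩

theorem remove {k n : ℕ} {s d : ℕ → ℕ} (M : Mini k n s) (h1 : ∀ a b, a < b → b < k → d a < d b)
    (h2 : ∀ a, a < k → d a < n) (h3 : ∀ a b, a < b → b < k → s (d b) < s (d a)) {i : ℕ}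
    (i1 : 1 ≤ i) (i2 : i < n) (hd : ∀ a, a < k → d a ≠ i) : ∃ j, i ≤ j ∧ j + 1 < n ∧
      1 + asc (del s i) j < (((range (n - 1)).image (del s i)).filter (· < s (j + 1))).card := by
  by_contra hh
  push Not at hh
  obtain ⟨f, hf⟩ : ∃ f : ℕ → ℕ, f = fun v => (((range (n - 1)).image (del s i)).filter (· < v)).card :=
    ⟨_, rfl⟩
  have f1 : ∀ v, f v ≤ v := fun v => by
    rw [hf]; exact (card_le_card fun x hx => mem_range.2 (mem_filter.1 hx).2).trans (card_range v).le
  have f2 : ∀ a, a < n - 1 → ∀ v, del s i a < v → f (del s i a) < f v := fun a ha v hv => by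
    rw [hf]
    refine card_lt_card ⟨fun x hx => mem_filter.2 ⟨(mem_filter.1 hx).1, (mem_filter.1 hx).2.trans hv⟩,
      fun h => ?_⟩
    simpa using h (mem_filter.2 ⟨mem_image_of_mem _ (mem_range.2 ha), hv⟩)
  have f3 : ∀ a b, a < n - 1 → b < n - 1 → (del s i a < del s i b ↔ f (del s i a) < f (del s i b)) ∧
      (del s i a = del s i b ↔ f (del s i a) = f (del s i b)) := fun a b ha hb => by
    have := f2 a ha (del s i b)
    have := f2 b hb (del s i a)
    rcases lt_trichotomy (del s i a) (del s i b) with h | h | h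
    · omega
    · simp [h]
    · omega
  refine M.2.2 (n - 1) (fun a => f (del s i a)) (by omega) ⟨by omega, ?_, fun j j1 j2 => ?_⟩
    ⟨fun a => if a < i then a else a + 1, fun a b h _ => by dsimp only; split_ifs <;> omega,
      fun a h => by dsimp only; split_ifs <;> omega, fun a b ha hb => ?_⟩
    (dec (d := fun a => if d a < i then d a else d a - 1) (fun a b h hb => ?_) (fun a h => ?_)
      fun a b h hb => ?_)
  · have := f1 (del s i 0)
    simp only [del, if_pos (show 0 < i by omega), M.1.2.1] at this ⊢
    omega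
  · rw [← asc_congr (s := del s i) fun a ha => (f3 a (a + 1) (by omega) (by omega)).1]
    by_cases c : j < i
    · have e : asc (del s i) j = asc s j := asc_congr fun a ha => by
        simp only [del]; rw [if_pos (by omega), if_pos (by omega)]
      have := f1 (del s i j)
      have := M.1.2.2 j j1 (by omega)
      simp only [del, if_pos c] at *
      omega
    · have := hh j (by omega) (by omega)
      simpa only [del, if_neg c, hf] using this
  · simpa only [del, apply_ite s] using f3 a b ha hb
  · have := h1 a b h hb; have := hd a (by omega); have := hd b hb; split_ifs <;> omega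
  · have := h2 a h; have := hd a h; split_ifs <;> omega
  · have e : ∀ a, a < k → del s i (if d a < i then d a else d a - 1) = s (d a) := fun a h => by
      have := hd a h
      unfold del
      split_ifs <;> first | rfl | omega | (congr 1; omega)
    have := h2 b hb
    have := hd b hb
    refine f2 _ (by split_ifs <;> omega) _ ?_
    rw [e a (by omega), e b hb]
    exact h3 a b h hb

theorem result (k n : ℕ) (s : ℕ → ℕ) (M : Mini k n s) : n ≤ 20 * k ^ 2 + 37 * k + 17 := by
  obtain ⟨d, h1, h2, h3'⟩ := M.2.1
  have h3 : ∀ a b, a < b → b < k → s (d b) < s (d a) := fun a b h hb =>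
    (h3' b a hb (by omega)).1.2 (by dsimp only; omega)
  obtain ⟨D, hD⟩ : ∃ D, D = insert 0 ((range k).image d) := ⟨_, rfl⟩
  have cD : D.card ≤ k + 1 := by
    rw [hD]; exact (card_insert_le _ _).trans (by simpa using card_image_le (s := range k) (f := d))
  have R : ∀ i, i < n → i ∉ D → ∃ j, i ≤ j ∧ j + 1 < n ∧ 1 ≤ i ∧
      1 + asc (del s i) j < (((range (n - 1)).image (del s i)).filter (· < s (j + 1))).card := by
    intro i hi h
    simp only [hD, mem_insert, mem_image, mem_range, not_or, not_exists, not_and] at h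
    obtain ⟨j, a, b, c⟩ := remove M h1 h2 h3 (by omega) hi h.2
    exact ⟨j, a, b, by omega, c⟩
  have fl : ∀ (S : Finset ℕ) v, (S.filter (· < v)).card ≤ v := fun S v =>
    (card_le_card fun x hx => mem_range.2 (mem_filter.1 hx).2).trans (card_range v).le
  have pre : ∀ i, asc (del s i) i = asc s i := fun i => asc_congr fun a ha => by
    simp only [del]; rw [if_pos (by omega), if_pos (by omega)]
  -- removing a good position loses an ascent
  have F4 : ∀ i, i + 1 < n → i + 1 ∉ D → i + 2 < n ∧ (if s i < s (i + 2) then 1 else 0) <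
      (if s i < s (i + 1) then 1 else 0) + (if s (i + 1) < s (i + 2) then 1 else 0) := by
    intro i hi h
    obtain ⟨j, a, b, -, c⟩ := R _ hi h
    have := fl ((range (n - 1)).image (del s (i + 1))) (s (j + 1))
    have := M.1.2.2 (j + 1) (by omega) b
    refine ⟨by omega, ?_⟩
    rcases a.eq_or_lt with rfl | a
    · rw [pre] at c
      have := asc_succ s i
      by_contra hh
      have := M.1.2.2 (i + 1) (by omega) hi
      rw [show i + 1 + 1 = i + 2 from rfl] at *
      split_ifs at * <;> omega
    · obtain ⟨j, rfl⟩ : ∃ j', j = i + 2 + j' := ⟨j - (i + 2), by omega⟩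
      have := asc_del s i j
      rw [show i + 2 + j + 1 = i + 3 + j by omega] at *
      omega
  -- the value at a good position is repeated
  have F2 : ∀ i, i < n → i ∉ D → ∃ j, j < n ∧ j ≠ i ∧ s j = s i := by
    intro i hi h
    by_contra hh
    push Not at hh
    obtain ⟨j, a, b, i1, c⟩ := R _ hi h
    have m1 := asc_mono (del s i) a
    rw [pre] at m1
    have m2 := M.1.2.2 i i1 hi
    have m3 := fl ((range (n - 1)).image (del s i)) (s (j + 1))
    have m4 := M.1.2.2 (j + 1) (by omega) b
    have m5 : s i < s (j + 1) := by have := hh (j + 1) b (by omega); omega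
    have m6 : (((range (n - 1)).image (del s i)).filter (· < s (j + 1))).card ≤ s (j + 1) - 1 := by
      refine (card_le_card (t := (range (s (j + 1))).erase (s i)) fun x hx => ?_).trans
        (by rw [card_erase_of_mem (mem_range.2 m5), card_range])
      simp only [mem_filter, mem_image, mem_range, mem_erase] at hx ⊢
      obtain ⟨⟨y, hy, rfl⟩, hx⟩ := hx
      refine ⟨?_, hx⟩
      unfold del
      split_ifs
      · exact hh y (by omega) (by omega)
      · exact hh _ (by omega) (by omega)
    obtain ⟨i, rfl⟩ : ∃ i', i = i' + 1 := ⟨i - 1, by omega⟩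
    rcases a.eq_or_lt with rfl | a
    · rw [pre] at c
      have := asc_succ s i
      rw [show i + 1 + 1 = i + 2 from rfl] at *
      split_ifs at * <;> omega
    · obtain ⟨j, rfl⟩ : ∃ j', j = i + 2 + j' := ⟨j - (i + 2), by omega⟩
      have := asc_del s i j
      rw [show i + 2 + j + 1 = i + 3 + j by omega] at *
      split_ifs at * <;> omega
  obtain ⟨A, hA⟩ : ∃ A, A = (range n).image s := ⟨_, rfl⟩
  have n0 := M.1.1
  by_cases hG : (range n \ D).Nonempty
  swap
  · rw [not_nonempty_iff_eq_empty, sdiff_eq_empty_iff_subset] at hG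
    have := card_le_card hG
    rw [card_range] at this
    nlinarith
  have F3 : asc s n ≤ A.card + k := by
    obtain ⟨i, hi, hm⟩ : ∃ i ∈ range n \ D, ∀ x ∈ range n \ D, x ≤ i :=
      ⟨_, max'_mem _ hG, fun x hx => le_max' _ x hx⟩
    simp only [mem_sdiff, mem_range] at hi hm
    obtain ⟨j, a, b, i1, c⟩ := R _ hi.1 hi.2
    have m1 := asc_mono (del s i) a
    rw [pre] at m1
    have m2 : (((range (n - 1)).image (del s i)).filter (· < s (j + 1))).card ≤ A.card := by
      refine card_le_card fun x hx => ?_
      simp only [hA, mem_filter, mem_image, mem_range] at hx ⊢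
      obtain ⟨⟨y, hy, rfl⟩, -⟩ := hx
      unfold del
      split_ifs
      · exact ⟨_, by omega, rfl⟩
      · exact ⟨_, by omega, rfl⟩
    have m3 : n - (i + 1) ≤ k + 1 := by
      rw [← Nat.card_Ico (i + 1) n]
      refine (card_le_card fun x hx => ?_).trans cD
      rw [mem_Ico] at hx
      by_contra hh
      have := hm x ⟨hx.2, hh⟩
      omega
    have m4 : asc s n ≤ asc s i + (n - i) := by
      rw [← Nat.card_Ico i n]
      refine ((card_le_card fun x hx => ?_).trans (card_union_le ((range (i - 1)).filter
        fun i => s i < s (i + 1)) ((Ico i n).image (· - 1)))).trans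
        (Nat.add_le_add_left card_image_le _)
      simp only [mem_filter, mem_range, mem_union, mem_image, mem_Ico] at hx ⊢
      by_cases c : x < i - 1
      · exact Or.inl ⟨c, hx.2⟩
      · exact Or.inr ⟨x + 1, by omega, by omega⟩
    omega
  have F5 : 2 * A.card ≤ n + (k + 1) := by
    have e := card_eq_sum_card_image s (range n)
    rw [card_range, ← hA] at e
    have : ∑ v ∈ A, 2 ≤ ∑ v ∈ A, (((range n).filter fun a => s a = v).card +
        if v ∈ D.image s then 1 else 0) := sum_le_sum fun v hv => by
      obtain ⟨i, hi, rfl⟩ := mem_image.1 (hA ▸ hv)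
      split_ifs with c
      · have := card_pos.2 ⟨i, (mem_filter (p := fun a => s a = s i)).2 ⟨hi, rfl⟩⟩
        omega
      · obtain ⟨j, a, b, c⟩ := F2 i (mem_range.1 hi) fun h => c (mem_image_of_mem _ h)
        have : 1 < ((range n).filter fun a => s a = s i).card :=
          one_lt_card.2 ⟨j, mem_filter.2 ⟨mem_range.2 a, c⟩, i, mem_filter.2 ⟨hi, rfl⟩, b⟩
        omega
    rw [sum_add_distrib, ← e, sum_const, smul_eq_mul, ← card_filter] at this
    have := (card_le_card (filter_subset_filter (fun v => v ∈ D.image s) (subset_refl A)))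
    have : (A.filter fun v => v ∈ D.image s).card ≤ k + 1 :=
      (card_le_card fun x hx => (mem_filter.1 hx).2).trans (card_image_le.trans cD)
    omega
  -- bad positions (shifted by one)
  obtain ⟨U, hU⟩ : ∃ U, U = (range (n - 2)).filter fun i => s i < s (i + 1) ∧ s (i + 1) < s (i + 2) :=
    ⟨_, rfl⟩
  obtain ⟨E, hE⟩ : ∃ E, E = (range (n - 2)).filter fun i => i + 1 ∈ D := ⟨_, rfl⟩
  have cE : E.card ≤ k + 1 := (card_le_card_of_injOn (· + 1) (fun x hx => by
    rw [hE] at hx; exact (mem_filter.1 hx).2) fun a _ b _ h => by simpa using h).trans cD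
  have cU : U.card ≤ 4 * k + 4 := by
    have : ∑ i ∈ range (n - 2), (1 + if s i < s (i + 1) ∧ s (i + 1) < s (i + 2) then 1 else 0) ≤
        ∑ i ∈ range (n - 2), ((if s i < s (i + 1) then 1 else 0) + (if s (i + 1) < s (i + 2) then 1 else 0)
          + if i + 1 ∈ D then 1 else 0) := sum_le_sum fun i hi => by
      have := F4 i (by rw [mem_range] at hi; omega)
      by_cases c : i + 1 ∈ D
      · split_ifs <;> omega
      · have := (this c).2
        split_ifs at * <;> omega
    simp only [sum_add_distrib, ← card_filter, sum_const, card_range, smul_eq_mul, ← hU, ← hE] at this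
    have a1 : ((range (n - 2)).filter fun i => s i < s (i + 1)).card ≤ asc s n :=
      card_le_card (filter_subset_filter _ (range_mono (by omega)))
    have a2 : ((range (n - 2)).filter fun i => s (i + 1) < s (i + 2)).card ≤ asc s n :=
      card_le_card_of_injOn (· + 1) (fun x hx => by
        simp only [coe_filter, mem_range, Set.mem_ofPred_eq] at hx ⊢; exact ⟨by omega, hx.2⟩)
        fun a _ b _ h => by simpa using h
    omega
  have nU : n ≤ 2 * A.card + 3 * k + 3 := by
    have : ∑ i ∈ range (n - 2), 1 ≤
        ∑ i ∈ range (n - 2), ((if s i < s (i + 1) then 1 else 0) + (if s (i + 1) < s (i + 2) then 1 else 0)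
          + if i + 1 ∈ D then 1 else 0) := sum_le_sum fun i hi => by
      have := F4 i (by rw [mem_range] at hi; omega)
      by_cases c : i + 1 ∈ D
      · split_ifs <;> omega
      · have := (this c).2
        split_ifs at * <;> omega
    simp only [sum_add_distrib, ← card_filter, sum_const, card_range, smul_eq_mul, ← hE] at this
    have a1 : ((range (n - 2)).filter fun i => s i < s (i + 1)).card ≤ asc s n :=
      card_le_card (filter_subset_filter _ (range_mono (by omega)))
    have a2 : ((range (n - 2)).filter fun i => s (i + 1) < s (i + 2)).card ≤ asc s n :=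
      card_le_card_of_injOn (· + 1) (fun x hx => by
        simp only [coe_filter, mem_range, Set.mem_ofPred_eq] at hx ⊢; exact ⟨by omega, hx.2⟩)
        fun a _ b _ h => by simpa using h
    omega
  obtain ⟨B, hB⟩ : ∃ B, B = U ∪ E := ⟨_, rfl⟩
  have cB : B.card ≤ 5 * k + 5 := by have := card_union_le U E; rw [hB]; omega
  have G : ∀ i, i + 2 < n → i ∉ B → s (i + 2) ≤ s i := fun i hi h => by
    simp only [hB, hU, hE, mem_union, mem_filter, mem_range, not_or, not_and] at h
    have := (F4 i (by omega) (h.2 (by omega))).2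
    have := h.1 (by omega)
    split_ifs at * <;> omega
  obtain ⟨T, hT⟩ : ∃ T, T = (range (n - 2)).filter fun i => i ∉ B ∧ s (i + 2) < s i := ⟨_, rfl⟩
  have cA : A.card ≤ 2 + B.card + T.card := by
    have : A ⊆ (range 2).image s ∪ (B ∪ T).image fun i => s (i + 2) := by
      have : ∀ i, i < n → s i ∈ (range 2).image s ∪ (B ∪ T).image fun i => s (i + 2) := by
        intro i
        induction i using Nat.strong_induction_on with
        | _ i ih =>
          intro hi
          by_cases c : i < 2
          · exact mem_union_left _ (mem_image_of_mem _ (mem_range.2 c))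
          obtain ⟨i, rfl⟩ : ∃ i', i = i' + 2 := ⟨i - 2, by omega⟩
          by_cases c2 : i ∈ B ∪ T
          · exact mem_union_right _ (mem_image_of_mem (fun i => s (i + 2)) c2)
          · simp only [hT, mem_union, mem_filter, mem_range, not_or, not_and] at c2
            have := G i hi c2.1
            have := c2.2 (by omega) c2.1
            rw [show s (i + 2) = s i by omega]
            exact ih i (by omega) (by omega)
      intro v hv
      obtain ⟨i, hi, rfl⟩ := mem_image.1 (hA ▸ hv)
      exact this i (mem_range.1 hi)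
    have := (card_le_card this).trans ((card_union_le _ _).trans
      (add_le_add card_image_le (card_image_le.trans (card_union_le _ _))))
    rw [card_range] at this
    omega
  have cT : T.card ≤ k * ((B.card + 1) * 2) := by
    have := card_le_mul_card_image_of_maps_to (s := T) (t := range (B.card + 1) ×ˢ range 2)
      (f := fun i => ((B.filter (· < i)).card, i % 2)) (fun i _ => by
        have := card_filter_le B (· < i)
        simp only [mem_product, mem_range]; omega) k ?_
    · simpa using this
    rintro ⟨p, q⟩ -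
    by_contra hh
    obtain ⟨S, hS⟩ : ∃ S, (T.filter fun i => ((B.filter (· < i)).card, i % 2) = (p, q)) = S := ⟨_, rfl⟩
    rw [hS] at hh
    have mS : ∀ x ∈ S, x + 2 < n ∧ x ∉ B ∧ s (x + 2) < s x ∧ (B.filter (· < x)).card = p ∧
        x % 2 = q := fun x hx => by
      rw [← hS, hT] at hx
      simp only [mem_filter, mem_range, Prod.mk.injEq] at hx
      exact ⟨by omega, hx.1.2.1, hx.1.2.2, hx.2⟩
    have ch : ∀ x ∈ S, ∀ y ∈ S, x < y → s (y + 2) < s (x + 2) := fun x hx y hy h => by
      obtain ⟨x1, x2, x3, x4, x5⟩ := mS x hx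
      obtain ⟨y1, y2, y3, y4, y5⟩ := mS y hy
      have e : B.filter (· < x) = B.filter (· < y) := eq_of_subset_of_card_le
        (fun z hz => mem_filter.2 ⟨(mem_filter.1 hz).1, (mem_filter.1 hz).2.trans h⟩) (by omega)
      have : ∀ t, x + 2 + 2 * t ≤ y → s (x + 2 + 2 * t) ≤ s (x + 2) := by
        intro t
        induction t with
        | zero => exact fun _ => le_rfl
        | succ t ih =>
          intro ht
          refine (G (x + 2 + 2 * t) (by omega) fun hb => ?_).trans (ih (by omega))
          have : x + 2 + 2 * t ∈ B.filter (· < y) := mem_filter.2 ⟨hb, by omega⟩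
          rw [← e, mem_filter] at this
          omega
      have := this ((y - x - 2) / 2) (by omega)
      rw [show x + 2 + 2 * ((y - x - 2) / 2) = y by omega] at this
      omega
    obtain ⟨g, g1, g2⟩ : ∃ g : ℕ → ℕ, (∀ a, a ≤ k → g a ∈ S) ∧ ∀ a b, a < b → b ≤ k → g a < g b :=
      ⟨fun a => if h : a < S.card then S.orderEmbOfFin rfl ⟨a, h⟩ else 0,
        fun a ha => by dsimp only; rw [dif_pos (by omega)]; exact orderEmbOfFin_mem _ _ _,
        fun a b h hb => by
          dsimp only; rw [dif_pos (by omega), dif_pos (by omega)]; exact (S.orderEmbOfFin rfl).strictMono h⟩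
    have := (mS _ (g1 k le_rfl)).1
    refine M.2.2 (n - 1) s (by omega) ⟨by omega, M.1.2.1, fun i a b => M.1.2.2 i a (by omega)⟩
      ⟨id, fun a b h _ => h, fun a h => by dsimp only [id]; omega, fun a b _ _ => ⟨Iff.rfl, Iff.rfl⟩⟩
      (dec (d := fun a => g a + 2) (fun a b h hb => ?_) (fun a h => ?_) fun a b h hb => ?_)
    · have := g2 a b h hb.le; omega
    · have := g2 a k h le_rfl; omega
    · exact ch _ (g1 a (by omega)) _ (g1 b hb.le) (g2 a b h hb.le)
  have : k * ((B.card + 1) * 2) ≤ k * ((5 * k + 6) * 2) :=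
    Nat.mul_le_mul_left _ (by omega)
  nlinarith

end Pool.Agent.Results.MP_b4bd03_co.Quad
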